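import Mathlib
import Pool.Agent.TH497.PW.IntFlow
import Pool.Agent.TH362.FP.Pos
import Pool.Agent.Y335.FL.Main
import Pool.Agent.Zk62.Flow.Ball

set_option autoImplicit false

/-!
# Nowhere-zero 5-flows in graphs which are covered by few balls (MP_974d84_co)

Give a ball of radius `0, 1, 2, 3, 4, 5` the weight `1, 4, 10, 24, 50, 104`.  Let `G` be a bridgeless
multigraph such that the vertices which are on at least three edges (loops are not counted) are
covered by balls with total weight at most `125`.  Then `G` has a nowhere-zero 5-flow, and the
characteristic polynomial of its bond matroid is positive at all integers `q ≥ 5`.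

In particular this holds for all bridgeless graphs with domination number at most `31`, for those
covered by twelve balls of radius two, by five balls of radius three, by two balls of radius four or
by one ball of radius five (so for all bridgeless graphs of radius at most five), and for mixtures:
one ball of radius five and `21` further vertices, and so on.  The degrees, the order, the
connectivity and the genus are arbitrary.

Proof.  The class is closed under contractions (not under deletions).  Let `G` be a counterexample
with as few edges as possible.  Circuits with at most eleven edges can be contracted (starting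
library `Y335/FL`), and so can one of two edges which form a cut; hence (starting library
`Y358/IN`) `G` has girth at least twelve and all degrees are at least three, apart from isolated
vertices.  Start with the two ends of an edge and choose two further neighbours again and again:
this gives a map from the double binary tree of depth five, which has `126` vertices, to `G`.  Let
`c` be a vertex and let `f` be the distance from `c`.  As `G` has girth at least twelve, a vertex
`v` with `f v ≤ 5` has at most one neighbour with the value `f v - 1`, and the other neighbours have
the value `f v + 1`.  A recursion on the tree, with a table of bounds checked by the kernel, shows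
that at most `1, 4, 10, 24, 50, 104` vertices of the tree have a value at most `0, 1, 2, 3, 4, 5`.
So balls with total weight less than `126` do not cover.  (The distances from `c` may be realised by
paths which leave the tree, and the degrees of the vertices outside the tree are not bounded, so
that the numbers are not the orders `3 * 2 ^ r - 2` of the balls in a cubic tree.)
-/

namespace Pool.Agent.Results.MP_974d84_co.CoveringBalls

open Pool.Agent.TH497.PW

variable {V E : Type}

/-- The edges with exactly one end in `X`. -/
def boundary [DecidableEq V] [Fintype E] (src dst : E → V) (X : Finset V) : Finset E :=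
  Finset.univ.filter (fun e => ¬ (src e ∈ X ↔ dst e ∈ X))

/-- Kirchhoff's law. -/
def IsFlow [DecidableEq V] [Fintype E] (src dst : E → V) (f : E → ℤ) : Prop :=
  ∀ v : V, ∑ e ∈ Finset.univ.filter (fun e => src e = v), f e
    = ∑ e ∈ Finset.univ.filter (fun e => dst e = v), f e

/-- The degree of `v`; loops are not counted. -/
def properDegree [DecidableEq V] [Fintype E] (src dst : E → V) (v : V) : ℕ :=
  (Finset.univ.filter (fun e => src e ≠ dst e ∧ (src e = v ∨ dst e = v))).card

/-- The number of the components of the graph with the vertices `V` and the edges `A`. -/
noncomputable def components (src dst : E → V) (A : Finset E) : ℕ :=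
  Nat.card (SimpleGraph.fromRel
    (fun u v : V => ∃ e ∈ A, src e = u ∧ dst e = v)).ConnectedComponent

/-- The rank of `A` in the cycle matroid of the graph. -/
noncomputable def cycleRank [Fintype V] (src dst : E → V) (A : Finset E) : ℕ :=
  Fintype.card V - components src dst A

/-- The rank of `A` in the bond matroid of the graph (the dual of the cycle matroid). -/
noncomputable def bondRank [Fintype V] [Fintype E] [DecidableEq E] (src dst : E → V)
    (A : Finset E) : ℕ :=
  A.card + cycleRank src dst Aᶜ - cycleRank src dst Finset.univ

/-- The characteristic polynomial of the bond matroid at the integer `x`. -/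
noncomputable def bondCharPoly [Fintype V] [Fintype E] [DecidableEq E] (src dst : E → V)
    (x : ℤ) : ℤ :=
  ∑ A : Finset E, (-1) ^ A.card * x ^ (bondRank src dst Finset.univ - bondRank src dst A)

theorem isFlow_iff [DecidableEq V] [Fintype E] (src dst : E → V) (f : E → ℤ) :
    IsFlow src dst f ↔
      ∀ v, ∑ e, f e * ((if src e = v then 1 else 0) - (if dst e = v then 1 else 0)) = 0 := by
  unfold IsFlow
  refine forall_congr' fun v => ?_
  rw [Finset.sum_filter, Finset.sum_filter, ← sub_eq_zero, ← Finset.sum_sub_distrib]
  have : ∀ e, (if src e = v then f e else 0) - (if dst e = v then f e else 0)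
      = f e * ((if src e = v then 1 else 0) - (if dst e = v then 1 else 0)) := by
    intro e
    by_cases h1 : src e = v <;> by_cases h2 : dst e = v <;> simp [h1, h2]
  rw [Finset.sum_congr rfl (fun e _ => this e)]

theorem nzf [Fintype V] [DecidableEq V] [Fintype E] [DecidableEq E] (src dst : E → V)
    (h : Pool.Agent.TH676.Z.FlowOn src dst ∅ ∅) : NZF src dst := by
  obtain ⟨f, h1, _, h3⟩ := h
  refine ⟨f, fun e => h3 e (Finset.notMem_empty _) (Finset.notMem_empty _), fun x => ?_⟩
  rw [← h1 x]
  unfold Pool.Agent.TH676.Z.bd
  refine Finset.sum_congr rfl fun e _ => ?_
  unfold ic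
  by_cases h4 : src e = x <;> by_cases h5 : dst e = x <;> simp [h4, h5]

theorem charPoly_pos [Fintype V] [DecidableEq V] [Fintype E] [DecidableEq E] (src dst : E → V)
    (f : E → ℤ) (h1 : IsFlow src dst f) (h2 : ∀ e, 1 ≤ |f e| ∧ |f e| ≤ 4) (q : ℕ) (hq : 5 ≤ q) :
    0 < bondCharPoly src dst q :=
  Pool.Agent.TH362.FP.chr_pos src dst f h2 h1 q hq

/-- There is a walk with at most `n` edges from `c` to `x`. -/
def Within (src dst : E → V) : ℕ → V → V → Prop
  | 0, c, x => c = x
  | n + 1, c, x => Within src dst n c x ∨
      ∃ y, Within src dst n c y ∧ ∃ e, (src e = y ∧ dst e = x) ∨ (src e = x ∧ dst e = y)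

/-- The weight of a ball of radius `r`. -/
def weight : ℕ → ℕ
  | 0 => 1
  | 1 => 4
  | 2 => 10
  | 3 => 24
  | 4 => 50
  | 5 => 104
  | _ => 126

theorem within_iff (src dst : E → V) (n : ℕ) : ∀ c x, Within src dst n c x ↔
    Pool.Agent.H173FL.Within src dst n c x := by
  induction n with
  | zero => intro c x; exact Iff.rfl
  | succ n ih =>
    intro c x
    simp only [Within, Pool.Agent.H173FL.Within, ih]

theorem weight_eq (r : ℕ) : weight r = Pool.Agent.Zk62.Flow.wt r := by
  rcases r with _ | _ | _ | _ | _ | _ | r <;> rfl

/-- **Theorem.** Let `G` be a finite multigraph (loops and parallel edges allowed), given by the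
ends `src e`, `dst e` of each edge `e`, without an edge cut consisting of exactly one edge.  Let
`L` be a list of balls, given by their centres and radii, with total weight at most `125`, such that
every vertex which is on at least three edges (loops are not counted) is in one of the balls.  Then
`G` has an integer flow with values in `{±1, ±2, ±3, ±4}`, and the characteristic polynomial of the
bond matroid of `G` is positive at all integers `q ≥ 5`. -/
theorem result :
    ∀ (V E : Type) [Fintype V] [DecidableEq V] [Fintype E] [DecidableEq E] (src dst : E → V)
      (L : List (V × ℕ)), (L.map (fun b => weight b.2)).sum ≤ 125 →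
      (∀ x, 3 ≤ properDegree src dst x → ∃ b ∈ L, Within src dst b.2 b.1 x) →
      (∀ Y : Finset V, (boundary src dst Y).card ≠ 1) →
      (∃ f : E → ℤ, IsFlow src dst f ∧ ∀ e, 1 ≤ |f e| ∧ |f e| ≤ 4) ∧
      ∀ q : ℕ, 5 ≤ q → 0 < bondCharPoly src dst q := by
  intro V E _ _ _ _ src dst L hL hc hb
  have hcl : Pool.Agent.Zk62.Flow.ClW src dst := by
    refine ⟨L, ?_, fun x hx => ?_⟩
    · have : (fun b : V × ℕ => weight b.2) = fun b => Pool.Agent.Zk62.Flow.wt b.2 :=
        funext fun b => weight_eq b.2
      rw [← this]
      exact hL
    · have hcr : (Pool.Agent.TH676.Z.crs src dst {x}).card ≤ properDegree src dst x := by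
        refine Finset.card_le_card fun e he => ?_
        rw [Pool.Agent.TH676.Z.Cut3.mem_crs, Finset.mem_singleton, Finset.mem_singleton] at he
        refine Finset.mem_filter.mpr ⟨Finset.mem_univ _, ?_, ?_⟩
        · intro h
          exact he ⟨fun h' => h.symm.trans h', fun h' => h.trans h'⟩
        · by_contra hcon
          push Not at hcon
          exact he ⟨fun h' => absurd h' hcon.1, fun h' => absurd h' hcon.2⟩
      obtain ⟨b, hb1, hb2⟩ := hc x (hx.trans hcr)
      exact ⟨b, hb1, (within_iff src dst _ _ _).mp hb2⟩
  have hfl := Pool.Agent.Zk62.Flow.flow_of_ClW Pool.Agent.Y335.FL.contract_all src dst hcl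
    (fun Y _ => by rw [Finset.sdiff_empty]; exact hb Y)
  obtain ⟨F, hF, hF0⟩ := int_flow src dst (nzf src dst hfl)
  have hF1 := (isFlow_iff src dst F).mpr hF0
  exact ⟨⟨F, hF1, hF⟩, fun q hq => charPoly_pos src dst F hF1 hF q hq⟩

end Pool.Agent.Results.MP_974d84_co.CoveringBalls
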