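import Mathlib
import Pool.Agent.TH497.PW.IntFlow
import Pool.Agent.TH362.FP.Pos
import Pool.Agent.Y335.FL.Main
import Pool.Agent.Zk57.Cover

set_option autoImplicit false

/-!
# Nowhere-zero 5-flows in graphs with a finite cover of small genus (MP_974d84_co)

Let `G` be a bridgeless multigraph and let `H` be a covering graph of `G` with `q` sheets (not
necessarily connected or regular), described by a permutation `σ e` of the sheets for every edge `e`
of `G`.  Let `S` be a set of `k ≤ 21 q` vertices of `H` such that `H - S` satisfies MacLane's condition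
with defect `h`, where `3 k + 2 h ≤ 63 q + 3`.  Then `G` has a nowhere-zero 5-flow, and the
characteristic polynomial of its bond matroid (a binary matroid without a minor isomorphic to `F_7` or
`M(K_5)`) is positive at all integers `≥ 5`.

MacLane's condition with defect `h` holds if `H - S` has an embedding of Euler genus at most `h` (for a
disconnected graph: the components have Euler genera with sum at most `h`).  So the theorem applies to
all bridgeless graphs which have, for some `q`, a `q`-fold cover

* which is planar, or becomes planar by the deletion of at most `21 q` vertices,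
* or which has Euler genus at most `(63 q + 3) / 2`,

and for `q = 1` it is the starting result `SurfacesAndApices`.  By a theorem of Negami the connected
graphs with a regular planar cover are the projective planar ones, and his conjecture, that this
holds for all finite planar covers, is open; here no embedding of `G` itself is required, and `21 q`
vertices of the cover may be deleted, which need not form fibres.

Proof.  The class of the graphs which have a `q`-fold cover `H` as in the theorem is closed under
minors: the lifts of an edge of `G` which is not a loop are disjoint edges, and they may be deleted or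
contracted one after another; so no circuit of `G - S` has to be lifted.  (Lifts of loops are
deleted.)  Let `G` be a minimal counterexample.  By the starting library (`Y335/FL`) it has girth at
least twelve and minimum degree at least three, and every vertex `v` satisfies `63 d(v) ≤ m`, where
`m ≥ 189` is the number of edges.  The map `H → G` is injective on the neighbourhood of each vertex,
so closed walks without reversals in `H` project to such walks in `G`; hence `H` has girth at least
twelve and minimum degree at least three, `q m ≥ 189 q` edges, and `63 q d(w) ≤ q m` for its vertices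
`w`.  The span of the faces (with the sum of all of them) gives `12 (c - h + 1) ≤ 2 m'` for the
dimension `c ≥ m' - n' + 1` of the cycle space of `H - S`, where `m'` and `n'` are the numbers of its
edges and vertices; `3 n' ≤ 2 m' + D` with the sum `D` of the degrees of the vertices of `S`, and
`63 q D ≤ k (m' + D)`.  These inequalities contradict each other.
-/

namespace Pool.Agent.Results.MP_974d84_co.CoversOfSmallGenus

open Pool.Agent.TH497.PW

variable {V E : Type}

/-- The first ends of the edges `(e, i)` of the cover with `q` sheets: the lift `(e, i)` of the edge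
`e` starts at the vertex `(src e, i)`. -/
def coverSrc (q : ℕ) (src : E → V) (x : E × Fin q) : V × Fin q := (src x.1, x.2)

/-- The second ends of the edges `(e, i)` of the cover with `q` sheets given by the permutations `σ`:
the lift `(e, i)` of the edge `e` ends at the vertex `(dst e, σ e i)`. -/
def coverDst (q : ℕ) (dst : E → V) (σ : E → Equiv.Perm (Fin q)) (x : E × Fin q) : V × Fin q :=
  (dst x.1, σ x.1 x.2)

/-- The edges with exactly one end in `Y`. -/
def boundary [DecidableEq V] [Fintype E] (src dst : E → V) (Y : Finset V) : Finset E :=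
  Finset.univ.filter (fun e => ¬ (src e ∈ Y ↔ dst e ∈ Y))

/-- Kirchhoff's law. -/
def IsFlow [DecidableEq V] [Fintype E] (src dst : E → V) (f : E → ℤ) : Prop :=
  ∀ v : V, ∑ e ∈ Finset.univ.filter (fun e => src e = v), f e
    = ∑ e ∈ Finset.univ.filter (fun e => dst e = v), f e

/-- The cycle space over `GF(2)` of the graph `G - S`: the functions on the edges which are zero on
the edges with an end in `S` and which satisfy Kirchhoff's law modulo 2. -/
def cycleSpace [DecidableEq V] [Fintype E] (src dst : E → V) (S : Finset V) :
    Submodule (ZMod 2) (E → ZMod 2) where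
  carrier := {x | (∀ e, (src e ∈ S ∨ dst e ∈ S) → x e = 0) ∧
    ∀ v : V, ∑ e ∈ Finset.univ.filter (fun e => src e = v), x e
      + ∑ e ∈ Finset.univ.filter (fun e => dst e = v), x e = 0}
  add_mem' := by
    rintro a b ⟨h1, h2⟩ ⟨h3, h4⟩
    refine ⟨fun e he => by rw [Pi.add_apply, h1 e he, h3 e he, add_zero], fun v => ?_⟩
    simp only [Pi.add_apply, Finset.sum_add_distrib]
    have := congrArg₂ (· + ·) (h2 v) (h4 v)
    simp only [add_zero] at this
    rw [← this]
    ring
  zero_mem' := ⟨fun _ _ => rfl, fun v => by simp⟩
  smul_mem' := by
    rintro c a ⟨h1, h2⟩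
    refine ⟨fun e he => by rw [Pi.smul_apply, h1 e he, smul_zero], fun v => ?_⟩
    simp only [Pi.smul_apply, smul_eq_mul, ← Finset.mul_sum]
    rw [← mul_add, h2 v, mul_zero]

/-- MacLane's condition with defect `h` for the graph `G - S`: there is a finite family of elements
of the cycle space of `G - S` such that every edge is in at most two of them and the dimension of
the cycle space is at most the dimension of their span plus `h`. -/
def MacLaneDefect [DecidableEq V] [Fintype E] (src dst : E → V) (S : Finset V) (h : ℕ) : Prop :=
  ∃ (k : ℕ) (K : Fin k → E → ZMod 2), (∀ i, K i ∈ cycleSpace src dst S) ∧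
    (∀ e, (Finset.univ.filter (fun i => K i e ≠ 0)).card ≤ 2) ∧
    Module.finrank (ZMod 2) (cycleSpace src dst S) ≤
      Module.finrank (ZMod 2) (Submodule.span (ZMod 2) (Set.range K)) + h

/-- The number of the components of the graph with the vertices `V` and the edges `A`. -/
noncomputable def components (src dst : E → V) (A : Finset E) : ℕ :=
  Nat.card (SimpleGraph.fromRel
    (fun u v : V => ∃ e ∈ A, src e = u ∧ dst e = v)).ConnectedComponent

/-- The rank of `A` in the cycle matroid of the graph. -/
noncomputable def cycleRank [Fintype V] (src dst : E → V) (A : Finset E) : ℕ :=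
  Fintype.card V - components src dst A

/-- The rank of `A` in the bond matroid of the graph (the dual of the cycle matroid). -/
noncomputable def bondRank [Fintype V] [Fintype E] [DecidableEq E] (src dst : E → V)
    (A : Finset E) : ℕ :=
  A.card + cycleRank src dst Aᶜ - cycleRank src dst Finset.univ

/-- The characteristic polynomial of the bond matroid at the integer `x`. -/
noncomputable def bondCharPoly [Fintype V] [Fintype E] [DecidableEq E] (src dst : E → V)
    (x : ℤ) : ℤ :=
  ∑ A : Finset E, (-1) ^ A.card * x ^ (bondRank src dst Finset.univ - bondRank src dst A)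

theorem isFlow_iff [DecidableEq V] [Fintype E] (src dst : E → V) (f : E → ℤ) :
    IsFlow src dst f ↔
      ∀ v, ∑ e, f e * ((if src e = v then 1 else 0) - (if dst e = v then 1 else 0)) = 0 := by
  unfold IsFlow
  refine forall_congr' fun v => ?_
  rw [Finset.sum_filter, Finset.sum_filter, ← sub_eq_zero, ← Finset.sum_sub_distrib]
  have : ∀ e, (if src e = v then f e else 0) - (if dst e = v then f e else 0)
      = f e * ((if src e = v then 1 else 0) - (if dst e = v then 1 else 0)) := by
    intro e
    by_cases h1 : src e = v <;> by_cases h2 : dst e = v <;> simp [h1, h2]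
  rw [Finset.sum_congr rfl (fun e _ => this e)]

theorem nzf [Fintype V] [DecidableEq V] [Fintype E] [DecidableEq E] (src dst : E → V)
    (h : Pool.Agent.TH676.Z.FlowOn src dst ∅ ∅) : NZF src dst := by
  obtain ⟨f, h1, _, h3⟩ := h
  refine ⟨f, fun e => h3 e (Finset.notMem_empty _) (Finset.notMem_empty _), fun x => ?_⟩
  rw [← h1 x]
  unfold Pool.Agent.TH676.Z.bd
  refine Finset.sum_congr rfl fun e _ => ?_
  unfold ic
  by_cases h4 : src e = x <;> by_cases h5 : dst e = x <;> simp [h4, h5]

theorem cycleSpace_eq [Fintype V] [DecidableEq V] [Fintype E] [DecidableEq E] (src dst : E → V)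
    (S : Finset V) : cycleSpace src dst S =
      Pool.Agent.TH676.Z.ZF src dst
        (Finset.univ.filter (fun e => src e ∉ S ∧ dst e ∉ S)) := by
  ext x
  have h2 : ∀ v, Pool.Agent.TH676.Z.bd2 src dst x v =
      ∑ e ∈ Finset.univ.filter (fun e => src e = v), x e
        + ∑ e ∈ Finset.univ.filter (fun e => dst e = v), x e := by
    intro v
    unfold Pool.Agent.TH676.Z.bd2
    rw [Finset.sum_add_distrib, Finset.sum_filter, Finset.sum_filter]
  constructor
  · rintro ⟨h, h'⟩
    refine ⟨fun e he => h e ?_, fun v => by rw [h2 v]; exact h' v⟩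
    by_contra hc
    push Not at hc
    exact he (Finset.mem_filter.mpr ⟨Finset.mem_univ _, hc⟩)
  · rintro ⟨h, h'⟩
    refine ⟨fun e he => h e ?_, fun v => by rw [← h2 v]; exact h' v⟩
    intro hc
    rcases he with he | he
    · exact (Finset.mem_filter.mp hc).2.1 he
    · exact (Finset.mem_filter.mp hc).2.2 he

theorem charPoly_pos [Fintype V] [DecidableEq V] [Fintype E] [DecidableEq E] (src dst : E → V)
    (f : E → ℤ) (h1 : IsFlow src dst f) (h2 : ∀ e, 1 ≤ |f e| ∧ |f e| ≤ 4) (q : ℕ) (hq : 5 ≤ q) :
    0 < bondCharPoly src dst q :=
  Pool.Agent.TH362.FP.chr_pos src dst f h2 h1 q hq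

/-- deletion of the edges in `D` -/
theorem mac_sdiff [Fintype V] [DecidableEq V] [Fintype E] [DecidableEq E] {src dst : E → V}
    {F : Finset E} {h : ℕ} (D : Finset E) (hM : Pool.Agent.TH676.Z.Mac h src dst F) :
    Pool.Agent.TH676.Z.Mac h src dst (F \ D) := by
  induction D using Finset.induction_on with
  | empty => rw [Finset.sdiff_empty]; exact hM
  | insert e D _ ih =>
    rw [Finset.sdiff_insert]
    exact Pool.Agent.TH676.Z.macDel V E src dst (F \ D) h e ih

/-- the cover, in which the lifts of the loops are replaced by loops, is a cover in the sense of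
`Pool.Agent.Zk57.Cv.Cov` -/
theorem isCov [Fintype V] [DecidableEq V] [Fintype E] [DecidableEq E] (q : ℕ) (src dst : E → V)
    (σ : E → Equiv.Perm (Fin q)) :
    Pool.Agent.Zk57.Cv.Cov q src dst (coverSrc q src)
      (Pool.Agent.TH676.Z.lp (coverSrc q src) (coverDst q dst σ)
        (Finset.univ.filter (fun x => src x.1 = dst x.1))) Prod.fst := by
  have hl : ∀ e i, src e ≠ dst e → Pool.Agent.TH676.Z.lp (coverSrc q src) (coverDst q dst σ)
      (Finset.univ.filter (fun x => src x.1 = dst x.1)) (e, i) = (dst e, σ e i) := by
    intro e i he
    simp [Pool.Agent.TH676.Z.lp, he, coverDst]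
  constructor
  · intro e i _
    rfl
  · intro e i he
    rw [hl e i he]
  · rintro e ⟨v, i⟩ _ hw
    change v = src e at hw
    subst hw
    refine ⟨i, rfl, fun y hy => ?_⟩
    exact congrArg Prod.snd hy
  · rintro e ⟨v, i⟩ he hw
    change v = dst e at hw
    subst hw
    refine ⟨(σ e).symm i, ?_, fun y hy => ?_⟩
    · change Pool.Agent.TH676.Z.lp (coverSrc q src) (coverDst q dst σ) _ (e, (σ e).symm i) = _
      rw [hl e _ he, Equiv.apply_symm_apply]
    · change Pool.Agent.TH676.Z.lp (coverSrc q src) (coverDst q dst σ) _ (e, y) = _ at hy
      rw [hl e _ he] at hy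
      have h1 : σ e y = i := congrArg Prod.snd hy
      rw [← h1, Equiv.symm_apply_apply]
  · intro e i he
    simp [Pool.Agent.TH676.Z.lp, he]

/-- **Theorem.** Let `G` be a finite multigraph (loops and parallel edges allowed), given by the
ends `src e`, `dst e` of each edge `e`, without an edge cut consisting of exactly one edge.  Let
`q ≥ 1`, let `H` be the cover of `G` with `q` sheets given by a permutation `σ e` of the sheets for
each edge `e`, let `S` be a set of vertices of `H` and let `H - S` satisfy MacLane's condition with
defect `h`.  If `3 |S| + 2 h ≤ 63 q + 3` and `|S| ≤ 21 q`, then `G` has an integer flow with values in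
`{±1, ±2, ±3, ±4}`, and the characteristic polynomial of its bond matroid is positive at all integers
`x ≥ 5`. -/
theorem result :
    ∀ (V E : Type) [Fintype V] [DecidableEq V] [Fintype E] [DecidableEq E]
      (src dst : E → V) (q : ℕ) (σ : E → Equiv.Perm (Fin q)) (S : Finset (V × Fin q)) (h : ℕ),
      1 ≤ q → 3 * S.card + 2 * h ≤ 63 * q + 3 → S.card ≤ 21 * q →
      MacLaneDefect (coverSrc q src) (coverDst q dst σ) S h →
      (∀ Y : Finset V, (boundary src dst Y).card ≠ 1) →
      (∃ f : E → ℤ, IsFlow src dst f ∧ ∀ e, 1 ≤ |f e| ∧ |f e| ≤ 4) ∧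
      ∀ x : ℕ, 5 ≤ x → 0 < bondCharPoly src dst x := by
  intro V E _ _ _ _ src dst q σ S h hq hkh hk hM hb
  have hM1 : Pool.Agent.TH676.Z.Mac h (coverSrc q src) (coverDst q dst σ)
      (Finset.univ.filter (fun e => coverSrc q src e ∉ S ∧ coverDst q dst σ e ∉ S)) := by
    obtain ⟨k, K, h1, h2, h3⟩ := hM
    rw [cycleSpace_eq] at h3
    exact ⟨k, K, fun i => by rw [← cycleSpace_eq]; exact h1 i, h2, h3⟩
  have hM2 : Pool.Agent.TH676.Z.Mac h (coverSrc q src) (coverDst q dst σ)
      (Pool.Agent.TH676.Z.ES (coverSrc q src) (coverDst q dst σ) S) := by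
    have h3 := mac_sdiff (Finset.univ.filter (fun e => coverSrc q src e = coverDst q dst σ e)) hM1
    have h4 : Pool.Agent.TH676.Z.ES (coverSrc q src) (coverDst q dst σ) S =
        (Finset.univ.filter (fun e => coverSrc q src e ∉ S ∧ coverDst q dst σ e ∉ S)) \
          (Finset.univ.filter (fun e => coverSrc q src e = coverDst q dst σ e)) := by
      ext e
      unfold Pool.Agent.TH676.Z.ES
      simp only [Finset.mem_filter, Finset.mem_univ, true_and, Finset.mem_sdiff]
      tauto
    rw [h4]
    exact h3
  have hbr : Pool.Agent.TH676.Z.Br src dst ∅ ∅ :=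
    fun Y _ => by rw [Finset.sdiff_empty]; exact hb Y
  have hA : Pool.Agent.Zk57.Cv.CovCl (W := V × Fin q) q
      (Pool.Agent.TH676.Z.ApH S.card h) src dst :=
    ⟨_, _, Prod.fst, isCov q src dst σ, Pool.Agent.Zk57.Cv.del_set
      (Pool.Agent.TH676.Z.aphMC (V × Fin q) (E × Fin q) S.card h) _ _ ⟨S, le_rfl, hM2⟩ _⟩
  have hfl : Pool.Agent.TH676.Z.FlowOn src dst ∅ ∅ :=
    Pool.Agent.Zk57.Cv.surfCov Pool.Agent.Y335.FL.girth_all Pool.Agent.Y335.FL.even_all
      Pool.Agent.Y335.FL.edge62_all V E (V × Fin q) q S.card h hq hkh hk src dst hA hbr
  obtain ⟨F, hF, hF0⟩ := int_flow src dst (nzf src dst hfl)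
  have hF1 := (isFlow_iff src dst F).mpr hF0
  exact ⟨⟨F, hF1, hF⟩, fun q hq => charPoly_pos src dst F hF1 hF q hq⟩

end Pool.Agent.Results.MP_974d84_co.CoversOfSmallGenus
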