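import Mathlib
import Pool.Agent.TH497.PW.IntFlow
import Pool.Agent.TH362.FP.Pos
import Pool.Agent.Y335.FL.Main
import Pool.Agent.Zk57.IndTree

/-!
# Nowhere-zero 5-flows: excluding a cubic tree with 94 vertices as an induced minor (MP_974d84_co)

Let `T'` be the tree with 94 vertices in which every vertex has degree three or one and the leaves
have distance five from a central vertex.  Every bridgeless multigraph `G` which does not contain `T'`
as an induced minor has a nowhere-zero 5-flow, and the characteristic polynomial of its bond matroid
(a binary matroid without a minor isomorphic to `F_7` or `M(K_5)`) is positive at all integers `q ≥ 5`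
(`inducedMinor`).  (An induced minor is obtained by contractions and deletions of vertices, but not
of edges.)  So the same holds if any induced minor of `T'` is excluded: for example if `G` does not
contain the star `K_{1,48}` as an induced minor, or has no induced matching with 27 edges, or no
asteroidal set with 24 vertices.  The order, the degrees, the connectivity, the genus and the
treewidth are arbitrary.

More generally (`result`) let `T` be the tree with 126 vertices which consists of two complete binary
trees of depth five and an edge between their roots.  The same holds for all bridgeless graphs `G`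
which have no almost induced minor isomorphic to `T`, that is, no 126 disjoint connected vertex sets,
labelled by the vertices of `T`, such that adjacent vertices of `T` belong to sets joined by an edge,
and the only other edges between different sets join the sets of two leaves of different sides.

Proof.  The class is closed under contractions (not under deletions of edges).  Let `G` be a
counterexample with as few edges as possible.  Circuits with at most eleven edges can be contracted
(starting library `Y335/FL`), and so can one of two edges which form a cut; hence `G` has girth at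
least twelve and all degrees are at least three (apart from isolated vertices).  Let `x` and `y` be
adjacent.  Paths from `x` which avoid `y` are continued by two different new neighbours of their
ends, up to length five, and the same is done for `y` (starting library `H173FL`).  Let `a` and `b`
be two of the vertices reached, and let them be adjacent.  Unless both paths have length five and start
on different sides, two paths from `x` (or from `y`), one of them continued by the edge `a b`, have
together at most eleven edges, and they would contain a circuit with at most eleven edges if they were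
different.  So one of `a`, `b` is the predecessor of the other one.
-/

namespace Pool.Agent.Results.MP_974d84_co.InducedTree

open Pool.Agent.TH497.PW

variable {V E : Type}

/-- The edges with exactly one end in `X`. -/
def boundary [DecidableEq V] [Fintype E] (src dst : E → V) (X : Finset V) : Finset E :=
  Finset.univ.filter (fun e => ¬ (src e ∈ X ↔ dst e ∈ X))

/-- The label `t` (a side and a word with at most five letters) is a vertex of the tree `T`. -/
def IsAddress (t : Bool × List Bool) : Prop := t.2.length ≤ 5

/-- The pairs of adjacent vertices of the tree `T`: the roots `(false, [])` and `(true, [])` of the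
two binary trees are adjacent, and `(b, w)` is adjacent to its children `(b, false :: w)` and
`(b, true :: w)` if the word `w` has less than five letters. -/
inductive TreeEdge : Bool × List Bool → Bool × List Bool → Prop
  | root : TreeEdge (false, []) (true, [])
  | child (b c : Bool) (w : List Bool) (h : w.length < 5) : TreeEdge (b, w) (b, c :: w)

/-- `t` and `t'` are leaves of different sides of the tree `T`. -/
def OppositeLeaves (t t' : Bool × List Bool) : Prop :=
  t.1 ≠ t'.1 ∧ t.2.length = 5 ∧ t'.2.length = 5

/-- The edge `e` joins two vertices with the labels `t` and `t'`. -/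
def Joins (src dst : E → V) (β : V → Option (Bool × List Bool)) (t t' : Bool × List Bool) (e : E) :
    Prop :=
  (β (src e) = some t ∧ β (dst e) = some t') ∨ (β (dst e) = some t ∧ β (src e) = some t')

/-- The vertices with the same label span connected subgraphs: for every set `X` of vertices which
contains some but not all of the vertices with the label `t`, an edge with both ends among them has
exactly one end in `X`. -/
def ConnectedClass (src dst : E → V) (β : V → Option (Bool × List Bool)) (t : Bool × List Bool) :
    Prop :=
  ∀ X : Set V, (∃ v ∈ X, β v = some t) → (∃ v ∉ X, β v = some t) →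
    ∃ e, Joins src dst β t t e ∧ ¬ (src e ∈ X ↔ dst e ∈ X)

/-- The tree `T` is an almost induced minor: some vertices are labelled by vertices of `T` such that
the vertices with the same label span a connected subgraph, for adjacent vertices `t`, `t'` of `T`
some edge joins a vertex with the label `t` to a vertex with the label `t'`, and every edge between
vertices with different labels belongs to an edge of `T` or to two leaves of different sides. -/
def HasAlmostInducedMinor (src dst : E → V) : Prop :=
  ∃ β : V → Option (Bool × List Bool),
    (∀ t, IsAddress t → ConnectedClass src dst β t) ∧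
    (∀ t t', TreeEdge t t' → ∃ e, Joins src dst β t t' e) ∧
    ∀ t t' e, IsAddress t → IsAddress t' → t ≠ t' → Joins src dst β t t' e →
      TreeEdge t t' ∨ TreeEdge t' t ∨ OppositeLeaves t t'

/-- The label `t` is a vertex of the tree `T'`: this is `T` without the leaves of the second side, so
it has `1 + 3 + 6 + 12 + 24 + 48 = 94` vertices, at distance at most five from `(false, [])`. -/
def IsInnerAddress (t : Bool × List Bool) : Prop := t.2.length ≤ 5 ∧ (t.1 = true → t.2.length ≤ 4)

/-- The tree `T'` is an induced minor: some vertices are labelled by vertices of `T'` such that the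
vertices with the same label span a connected subgraph, and for different vertices `t`, `t'` of `T'`
some edge joins a vertex with the label `t` to a vertex with the label `t'` if and only if `t` and
`t'` are adjacent. -/
def HasInducedTreeMinor (src dst : E → V) : Prop :=
  ∃ β : V → Option (Bool × List Bool),
    (∀ t, IsInnerAddress t → ConnectedClass src dst β t) ∧
    ∀ t t', IsInnerAddress t → IsInnerAddress t' → t ≠ t' →
      ((∃ e, Joins src dst β t t' e) ↔ TreeEdge t t' ∨ TreeEdge t' t)

/-- Kirchhoff's law. -/
def IsFlow [DecidableEq V] [Fintype E] (src dst : E → V) (f : E → ℤ) : Prop :=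
  ∀ v : V, ∑ e ∈ Finset.univ.filter (fun e => src e = v), f e
    = ∑ e ∈ Finset.univ.filter (fun e => dst e = v), f e

/-- The number of the components of the graph with the vertices `V` and the edges `A`. -/
noncomputable def components (src dst : E → V) (A : Finset E) : ℕ :=
  Nat.card (SimpleGraph.fromRel
    (fun u v : V => ∃ e ∈ A, src e = u ∧ dst e = v)).ConnectedComponent

/-- The rank of `A` in the cycle matroid of the graph. -/
noncomputable def cycleRank [Fintype V] (src dst : E → V) (A : Finset E) : ℕ :=
  Fintype.card V - components src dst A

/-- The rank of `A` in the bond matroid of the graph (the dual of the cycle matroid). -/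
noncomputable def bondRank [Fintype V] [Fintype E] [DecidableEq E] (src dst : E → V)
    (A : Finset E) : ℕ :=
  A.card + cycleRank src dst Aᶜ - cycleRank src dst Finset.univ

/-- The characteristic polynomial of the bond matroid at the integer `x`. -/
noncomputable def bondCharPoly [Fintype V] [Fintype E] [DecidableEq E] (src dst : E → V)
    (x : ℤ) : ℤ :=
  ∑ A : Finset E, (-1) ^ A.card * x ^ (bondRank src dst Finset.univ - bondRank src dst A)

theorem isFlow_iff [DecidableEq V] [Fintype E] (src dst : E → V) (f : E → ℤ) :
    IsFlow src dst f ↔
      ∀ v, ∑ e, f e * ((if src e = v then 1 else 0) - (if dst e = v then 1 else 0)) = 0 := by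
  unfold IsFlow
  refine forall_congr' fun v => ?_
  rw [Finset.sum_filter, Finset.sum_filter, ← sub_eq_zero, ← Finset.sum_sub_distrib]
  have : ∀ e, (if src e = v then f e else 0) - (if dst e = v then f e else 0)
      = f e * ((if src e = v then 1 else 0) - (if dst e = v then 1 else 0)) := by
    intro e
    by_cases h1 : src e = v <;> by_cases h2 : dst e = v <;> simp [h1, h2]
  rw [Finset.sum_congr rfl (fun e _ => this e)]

theorem nzf [Fintype V] [DecidableEq V] [Fintype E] [DecidableEq E] (src dst : E → V)
    (h : Pool.Agent.TH676.Z.FlowOn src dst ∅ ∅) : NZF src dst := by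
  obtain ⟨f, h1, _, h3⟩ := h
  refine ⟨f, fun e => h3 e (Finset.notMem_empty _) (Finset.notMem_empty _), fun x => ?_⟩
  rw [← h1 x]
  unfold Pool.Agent.TH676.Z.bd
  refine Finset.sum_congr rfl fun e _ => ?_
  unfold ic
  by_cases h4 : src e = x <;> by_cases h5 : dst e = x <;> simp [h4, h5]

theorem charPoly_pos [Fintype V] [DecidableEq V] [Fintype E] [DecidableEq E] (src dst : E → V)
    (f : E → ℤ) (h1 : IsFlow src dst f) (h2 : ∀ e, 1 ≤ |f e| ∧ |f e| ≤ 4) (q : ℕ) (hq : 5 ≤ q) :
    0 < bondCharPoly src dst q :=
  Pool.Agent.TH362.FP.chr_pos src dst f h2 h1 q hq

theorem almost_of (src dst : E → V) (h : Pool.Agent.Zk57.IT.IndTree 5 src dst) :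
    HasAlmostInducedMinor src dst := by
  obtain ⟨β, h1, h2, h3⟩ := h
  have hP : ∀ t t' : Bool × List Bool, t'.2.length ≤ 5 → Pool.Agent.Zk57.IT.Par t t' →
      TreeEdge t t' := by
    rintro ⟨b, w⟩ ⟨b', w'⟩ hl (⟨p1, p2⟩ | ⟨p1, c, p2⟩)
    · rw [p1, p2]
      exact TreeEdge.root
    · simp only at p1 p2 hl
      subst p1
      subst p2
      exact TreeEdge.child _ _ _ (by simpa using hl)
  have hP' : ∀ t t' : Bool × List Bool, TreeEdge t t' → t'.2.length ≤ 5 ∧
      Pool.Agent.Zk57.IT.Par t t' := by
    intro t t' ht
    cases ht with
    | root => exact ⟨by simp, Or.inl ⟨rfl, rfl⟩⟩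
    | child b c w hw => exact ⟨by simpa using hw, Or.inr ⟨rfl, c, rfl⟩⟩
  refine ⟨β, ?_, ?_, ?_⟩
  · intro t ht X hv hv'
    obtain ⟨v, hvX, hvt⟩ := hv
    obtain ⟨v', hvX', hvt'⟩ := hv'
    obtain ⟨e, a1, a2, a3⟩ := h1 t ht (fun v => v ∈ X) ⟨v, hvX, hvt⟩ ⟨v', hvX', hvt'⟩
    exact ⟨e, Or.inl ⟨a1, a2⟩, a3⟩
  · intro t t' ht
    obtain ⟨a1, a2⟩ := hP' t t' ht
    exact h2 t t' a1 a2
  · intro t t' e ht ht' hne he
    rcases he with ⟨a, b⟩ | ⟨a, b⟩
    · rcases h3 e t t' ht ht' a b hne with h | h | h
      · exact Or.inl (hP _ _ ht' h)
      · exact Or.inr (Or.inl (hP _ _ ht h))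
      · exact Or.inr (Or.inr h)
    · rcases h3 e t' t ht' ht b a hne.symm with h | h | h
      · exact Or.inr (Or.inl (hP _ _ ht h))
      · exact Or.inl (hP _ _ ht' h)
      · exact Or.inr (Or.inr ⟨h.1.symm, h.2.2, h.2.1⟩)

open Pool.Agent.TH676.Z Pool.Agent.Y335.FL in
/-- no almost induced minor isomorphic to the tree -/
theorem flowOn [Fintype V] [DecidableEq V] [Fintype E] [DecidableEq E] {src dst : E → V}
    (h : ¬ HasAlmostInducedMinor src dst)
    (hb : ∀ Y : Finset V, (crs src dst Y).card ≠ 1) : FlowOn src dst ∅ ∅ :=
  Pool.Agent.Zk57.IT.flow_of_no_indTree contract_all src dst (fun h' => h (almost_of src dst h'))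
    (fun Y _ => by rw [Finset.sdiff_empty]; exact hb Y)

/-- **Theorem.** Let `G` be a finite multigraph (loops and parallel edges allowed), given by the
ends `src e`, `dst e` of each edge `e`, without an edge cut consisting of exactly one edge.  If the
tree `T`, which consists of two complete binary trees of depth five and an edge between their roots,
is not an almost induced minor of `G`, then `G` has an integer flow with values in
`{±1, ±2, ±3, ±4}`, and the characteristic polynomial of the bond matroid of `G` is positive at all
integers `q ≥ 5`. -/
theorem result :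
    ∀ (V E : Type) [Fintype V] [DecidableEq V] [Fintype E] [DecidableEq E] (src dst : E → V),
      ¬ HasAlmostInducedMinor src dst →
      (∀ Y : Finset V, (boundary src dst Y).card ≠ 1) →
      (∃ f : E → ℤ, IsFlow src dst f ∧ ∀ e, 1 ≤ |f e| ∧ |f e| ≤ 4) ∧
      ∀ q : ℕ, 5 ≤ q → 0 < bondCharPoly src dst q := by
  intro V E _ _ _ _ src dst h hb
  have hfl := flowOn h hb
  obtain ⟨F, hF, hF0⟩ := int_flow src dst (nzf src dst hfl)
  have hF1 := (isFlow_iff src dst F).mpr hF0
  exact ⟨⟨F, hF1, hF⟩, fun q hq => charPoly_pos src dst F hF1 hF q hq⟩

theorem edge_length (t t' : Bool × List Bool) (h : TreeEdge t t') :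
    t.2.length ≤ t'.2.length ∧ t.2.length ≤ 4 ∧ t'.2.length ≤ 5 := by
  cases h with
  | root => simp
  | child b c w hw => simp only [List.length_cons]; omega

theorem joins_ext (src dst : E → V) (β γ : V → Option (Bool × List Bool)) (t t' : Bool × List Bool)
    (ht : ∀ v, γ v = some t ↔ β v = some t) (ht' : ∀ v, γ v = some t' ↔ β v = some t') (e : E) :
    Joins src dst γ t t' e ↔ Joins src dst β t t' e := by
  unfold Joins
  rw [ht, ht, ht', ht']

/-- An almost induced minor isomorphic to `T` contains an induced minor isomorphic to `T'`. -/
theorem induced_of_almost (src dst : E → V) (h : HasAlmostInducedMinor src dst) :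
    HasInducedTreeMinor src dst := by
  obtain ⟨β, h1, h2, h3⟩ := h
  refine ⟨β, fun t ht => h1 t ht.1, fun t t' ht ht' hne => ⟨?_, ?_⟩⟩
  · rintro ⟨e, he⟩
    rcases h3 t t' e ht.1 ht'.1 hne he with h | h | h
    · exact Or.inl h
    · exact Or.inr h
    · exfalso
      obtain ⟨a, b, c⟩ := h
      cases hb : t.1
      · have h4 : t'.1 = true := by
          cases hb' : t'.1
          · rw [hb, hb'] at a; exact absurd rfl a
          · rfl
        have := ht'.2 h4
        omega
      · have := ht.2 hb
        omega
  · rintro (h | h)
    · exact h2 t t' h
    · obtain ⟨e, he⟩ := h2 t' t h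
      refine ⟨e, ?_⟩
      rcases he with ⟨a, b⟩ | ⟨a, b⟩
      · exact Or.inr ⟨b, a⟩
      · exact Or.inl ⟨b, a⟩

/-- **Corollary.** The same holds if `G` does not contain the tree `T'` with 94 vertices as an
induced minor. -/
theorem inducedMinor :
    ∀ (V E : Type) [Fintype V] [DecidableEq V] [Fintype E] [DecidableEq E] (src dst : E → V),
      ¬ HasInducedTreeMinor src dst →
      (∀ Y : Finset V, (boundary src dst Y).card ≠ 1) →
      (∃ f : E → ℤ, IsFlow src dst f ∧ ∀ e, 1 ≤ |f e| ∧ |f e| ≤ 4) ∧
      ∀ q : ℕ, 5 ≤ q → 0 < bondCharPoly src dst q :=
  fun V E _ _ _ _ src dst h hb => result V E src dst (fun h' => h (induced_of_almost src dst h')) hb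

end Pool.Agent.Results.MP_974d84_co.InducedTree
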