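import Mathlib
import Pool.Agent.TH497.PW.IntFlow
import Pool.Agent.TH362.FP.Pos
import Pool.Agent.Y335.FL.Main
import Pool.Agent.Zk57.Mat62

/-!
# Nowhere-zero 5-flows in graphs with matching number at most 62 (MP_974d84_co)

Let `G` be a bridgeless multigraph in which every matching has at most 62 edges.  Then `G` has a
nowhere-zero 5-flow, and the characteristic polynomial of its bond matroid (a binary matroid without a
minor isomorphic to `F_7` or `M(K_5)`) is positive at all integers `q ≥ 5`.  This includes all
bridgeless graphs with at most 125 vertices and all bridgeless graphs with a vertex cover with at most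
62 vertices.  The order, the degrees and the genus are arbitrary.
(Tutte's 12-cage has matching number 63.)

Proof.  The class is closed under minors.  Let `G` be a minimal counterexample.  By the starting library
(`Y335/FL`) it has girth at least twelve and no parallel edges, all degrees are at least three (apart
from isolated vertices), and every vertex `s` satisfies `63 d(s) ≤ |E(G)|`.  By the Moore bound for
irregular graphs of girth twelve (Alon, Hoory and Linial, `Y335/FL/Ahl.lean`) there are at least 126
vertices, and an odd set `O` of at most 123 vertices spans at most `(3 |O| - 3) / 2` edges.  If all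
matchings have at most 62 edges then by the Tutte–Berge formula there are a set `A` of `a` vertices and
at least `a + 1` disjoint odd sets `O` (in fact `a + n - 125`, where `n` is the number of vertices of
positive degree), without other neighbours than `A`; let `R` be the set of the `r` remaining vertices.
With `z = ∑ (|O| - 1) / 2` one has `2 a + 2 z + r ≤ 125`.  If `a = 0` then the sets `O` have minimum
degree three and at most 125 vertices, a contradiction to the Moore bound.  If `a ≥ 1` then the number
`m` of the edges outside `A` is at most `3 z + 3 r / 2`, the sum `t` of the degrees in `A` satisfies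
`63 t ≤ a (m + t)`, hence `t < 3 a + 3`; but by the degrees outside `A` the number of the odd sets is at
most `t / 3`.
-/

namespace Pool.Agent.Results.MP_974d84_co.MatchingNumber62

open Pool.Agent.TH497.PW

variable {V E : Type}

/-- The edges with exactly one end in `X`. -/
def boundary [DecidableEq V] [Fintype E] (src dst : E → V) (X : Finset V) : Finset E :=
  Finset.univ.filter (fun e => ¬ (src e ∈ X ↔ dst e ∈ X))

/-- `M` is a matching: its edges are not loops and no two of them have a common end. -/
def IsMatching (src dst : E → V) (M : Finset E) : Prop :=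
  (∀ e ∈ M, src e ≠ dst e) ∧ ∀ e ∈ M, ∀ e' ∈ M, e ≠ e' →
    src e ≠ src e' ∧ src e ≠ dst e' ∧ dst e ≠ src e' ∧ dst e ≠ dst e'

/-- Kirchhoff's law. -/
def IsFlow [DecidableEq V] [Fintype E] (src dst : E → V) (f : E → ℤ) : Prop :=
  ∀ v : V, ∑ e ∈ Finset.univ.filter (fun e => src e = v), f e
    = ∑ e ∈ Finset.univ.filter (fun e => dst e = v), f e

/-- The number of the components of the graph with the vertices `V` and the edges `A`. -/
noncomputable def components (src dst : E → V) (A : Finset E) : ℕ :=
  Nat.card (SimpleGraph.fromRel
    (fun u v : V => ∃ e ∈ A, src e = u ∧ dst e = v)).ConnectedComponent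

/-- The rank of `A` in the cycle matroid of the graph. -/
noncomputable def cycleRank [Fintype V] (src dst : E → V) (A : Finset E) : ℕ :=
  Fintype.card V - components src dst A

/-- The rank of `A` in the bond matroid of the graph (the dual of the cycle matroid). -/
noncomputable def bondRank [Fintype V] [Fintype E] [DecidableEq E] (src dst : E → V)
    (A : Finset E) : ℕ :=
  A.card + cycleRank src dst Aᶜ - cycleRank src dst Finset.univ

/-- The characteristic polynomial of the bond matroid at the integer `x`. -/
noncomputable def bondCharPoly [Fintype V] [Fintype E] [DecidableEq E] (src dst : E → V)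
    (x : ℤ) : ℤ :=
  ∑ A : Finset E, (-1) ^ A.card * x ^ (bondRank src dst Finset.univ - bondRank src dst A)

theorem isFlow_iff [DecidableEq V] [Fintype E] (src dst : E → V) (f : E → ℤ) :
    IsFlow src dst f ↔
      ∀ v, ∑ e, f e * ((if src e = v then 1 else 0) - (if dst e = v then 1 else 0)) = 0 := by
  unfold IsFlow
  refine forall_congr' fun v => ?_
  rw [Finset.sum_filter, Finset.sum_filter, ← sub_eq_zero, ← Finset.sum_sub_distrib]
  have : ∀ e, (if src e = v then f e else 0) - (if dst e = v then f e else 0)
      = f e * ((if src e = v then 1 else 0) - (if dst e = v then 1 else 0)) := by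
    intro e
    by_cases h1 : src e = v <;> by_cases h2 : dst e = v <;> simp [h1, h2]
  rw [Finset.sum_congr rfl (fun e _ => this e)]

theorem nzf [Fintype V] [DecidableEq V] [Fintype E] [DecidableEq E] (src dst : E → V)
    (h : Pool.Agent.TH676.Z.FlowOn src dst ∅ ∅) : NZF src dst := by
  obtain ⟨f, h1, _, h3⟩ := h
  refine ⟨f, fun e => h3 e (Finset.notMem_empty _) (Finset.notMem_empty _), fun x => ?_⟩
  rw [← h1 x]
  unfold Pool.Agent.TH676.Z.bd
  refine Finset.sum_congr rfl fun e _ => ?_
  unfold ic
  by_cases h4 : src e = x <;> by_cases h5 : dst e = x <;> simp [h4, h5]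

theorem charPoly_pos [Fintype V] [DecidableEq V] [Fintype E] [DecidableEq E] (src dst : E → V)
    (f : E → ℤ) (h1 : IsFlow src dst f) (h2 : ∀ e, 1 ≤ |f e| ∧ |f e| ≤ 4) (q : ℕ) (hq : 5 ≤ q) :
    0 < bondCharPoly src dst q :=
  Pool.Agent.TH362.FP.chr_pos src dst f h2 h1 q hq

open Pool.Agent.TH676.Z Pool.Agent.Y335.FL in
theorem flowOn [Fintype V] [DecidableEq V] [Fintype E] [DecidableEq E] {src dst : E → V}
    (h : ∀ M : Finset E, IsMatching src dst M → M.card ≤ 62)
    (hb : ∀ Y : Finset V, (crs src dst Y).card ≠ 1) : FlowOn src dst ∅ ∅ :=
  Pool.Agent.Zk57.M62.flow62 girth_all edge62_all V E src dst h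
    (fun Y _ => by rw [Finset.sdiff_empty]; exact hb Y)

/-- **Theorem.** Let `G` be a finite multigraph (loops and parallel edges allowed), given by the
ends `src e`, `dst e` of each edge `e`, without an edge cut consisting of exactly one edge.  If every
matching of `G` has at most 62 edges, then `G` has an integer flow with values in
`{±1, ±2, ±3, ±4}`, and the characteristic polynomial of the bond matroid of `G` is positive at all
integers `q ≥ 5`. -/
theorem result :
    ∀ (V E : Type) [Fintype V] [DecidableEq V] [Fintype E] [DecidableEq E] (src dst : E → V),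
      (∀ M : Finset E, IsMatching src dst M → M.card ≤ 62) →
      (∀ Y : Finset V, (boundary src dst Y).card ≠ 1) →
      (∃ f : E → ℤ, IsFlow src dst f ∧ ∀ e, 1 ≤ |f e| ∧ |f e| ≤ 4) ∧
      ∀ q : ℕ, 5 ≤ q → 0 < bondCharPoly src dst q := by
  intro V E _ _ _ _ src dst h hb
  have hfl := flowOn h hb
  obtain ⟨F, hF, hF0⟩ := int_flow src dst (nzf src dst hfl)
  have hF1 := (isFlow_iff src dst F).mpr hF0
  exact ⟨⟨F, hF1, hF⟩, fun q hq => charPoly_pos src dst F hF1 hF q hq⟩

end Pool.Agent.Results.MP_974d84_co.MatchingNumber62
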